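import Pool.Agent.T2H06.DYG.Main

/-!
# The numerical dimension and commuting birational self-maps of positive entropy

Let `X` be a normal projective variety of dimension `n` with canonical singularities, for example a
projective manifold, and suppose that the group `ℤ ^ r`, `r ≥ 1`, acts on `X` by birational self-maps
such that the largest dynamical degrees of all elements but `0` are at least `1 + ε`, for some
`ε > 0`. Then `r + ν (K_X) ≤ n - 1`. Hence `κ (X) = ν (X) = n - 1 - r` if `κ (X) ≥ n - 1 - r`.

The variety is given by the homogeneous coordinates `y` of its generic point (`NormalModel`), the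
birational maps by the automorphisms `ρ a` of the function field `K`. `Canonical` says that `X` has
canonical singularities, `DynDegree y n g p δ` that `δ` is the `p`-th dynamical degree of the
birational map given by `g`, and `NumDimLt y n 0 j` that `ν (K_X) < j`: for large `m` and small
`b / m` the maps given by the sections of `m K_X + b A` and by `n - j` pencils of hyperplane sections
have degree at most `ε m ^ j`, so that the positive product of `j` copies of `K_X` and `n - j`
hyperplane sections is `0`. For nef `K_X` this product is the intersection number. `KodairaGe`,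
`KodairaEq` and `NumDimEq` say `κ (X) ≥ k`, `κ (X) = k` and `ν (X) = k`.
-/

set_option autoImplicit false

open FF Pool.Agent.W602.GT Pool.Agent.Y172 Pool.Agent.R887 Pool.Agent.T2H06.DYN

namespace Pool.Agent.Results.MP_c2a5fc_ag.CommutingBirationalMaps

/-- Let `X` be a normal projective variety of dimension `n > 0` with canonical singularities, on which
`ℤ ^ r`, `r > 0`, acts by birational maps such that for some `ε > 0` each element `a ≠ 0` has a
dynamical degree which is at least `1 + ε`. Then `ν (K_X) < j` if `r + j ≥ n`, that is,
`r + ν (K_X) ≤ n - 1`. In particular `κ (X) = ν (X) = k` if `κ (X) ≥ k`, where `k < n`, and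
`r + k ≥ n - 1`. -/
theorem result {K : Type} [Field K] [Algebra ℂ K] {N n r : ℕ} {y : Fin (N + 1) → K}
    (hy : NormalModel y) (hn : Algebra.trdeg ℂ K = n) (hn0 : 0 < n) (hcan : Canonical y n)
    (hr : 0 < r) (ρ : (Fin r → ℤ) → (K ≃ₐ[ℂ] K)) (hρ : ∀ a b, ρ (a + b) = ρ a * ρ b) {ε : ℝ}
    (hε : 0 < ε) (hent : ∀ a, a ≠ 0 → ∃ p ≤ n, ∃ δ : ℝ, 1 + ε ≤ δ ∧ DynDegree y n (ρ a) p δ) :
    (∀ j ≤ n, n ≤ r + j → NumDimLt y n 0 j) ∧
      ∀ k < n, n ≤ r + k + 1 → KodairaGe y n k → KodairaEq y n k ∧ NumDimEq y n k :=
  Pool.Agent.T2H06.DYG.commuting_abundance hr hρ hy hn hn0 hcan hε hent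

end Pool.Agent.Results.MP_c2a5fc_ag.CommutingBirationalMaps
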