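import Pool.Agent.T2H07.Grow

/-!
# The numerical dimension and the degrees of dominant multi-valued rational maps

Let `X` be a normal projective variety of dimension `n` with canonical singularities, for example a
projective manifold, and let `k < n`. If `X` is dominated by multi-valued rational maps from a fixed
variety `X'` whose `k + 1`-st mixed degrees grow more slowly than their topological degrees, then
`ν (K_X) ≤ k`. Hence `κ (X) = ν (X) = k` if also `κ (X) ≥ k`. An example are the iterates of a
dominant rational self-map `f` of `X`, of any topological degree, with the dynamical degrees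
`δ_(n-k-1) (f) < δ_n (f)` (`Pool.Agent.T2H07.Grow.grow_self`).

The varieties are given by the homogeneous coordinates `y` and `y'` of their generic points
(`NormalModel`), the maps by homomorphisms of the function fields. `Canonical` says that `X` has
canonical singularities. `NumDimLt y n 0 j` says that `ν (K_X) < j`: for large `m` and small `b / m`
the maps given by the sections of `m K_X + b A` and by `n - j` pencils of hyperplane sections have
degree at most `ε m ^ j`, so that the positive product of `j` copies of `K_X` and `n - j` hyperplane
sections is `0`. For nef `K_X` this product is the intersection number. `KodairaGe`, `KodairaEq` and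
`NumDimEq` say `κ (X) ≥ k`, `κ (X) = k` and `ν (X) = k`.
-/

set_option autoImplicit false

open FF Pool.Agent.W602.GT Pool.Agent.Y172 Pool.Agent.R887 Pool.Agent.T2H06.DYN

namespace Pool.Agent.Results.MP_c2a5fc_ag.DegreeGrowthAbundance

/-- Let `X` and `X'` be normal projective varieties of dimension `n`, `X` with canonical
singularities, let `S` be a finite set of prime divisors of `X'` and `k < n`. Suppose that for all
`ε > 0` there is a multi-valued rational map `X' ← X'' → X`: a variety `X''` with a generically finite
rational map `p` to `X'`, unramified over the prime divisors of `X'` which are not in `S`, and a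
dominant rational map `f` to `X`, such that the intersection number `(f^* H)^(n-k-1) (p^* H')^(k+1)`
is at most `ε deg f`, `H` and `H'` being hyperplane sections of `X` and `X'`. Then `ν (K_X) ≤ k`, and
`κ (X) = ν (X) = k` if `κ (X) ≥ k`. -/
theorem result {K K' : Type} [Field K] [Algebra ℂ K] [Field K'] [Algebra ℂ K'] {N N' n : ℕ}
    {y : Fin (N + 1) → K} {y' : Fin (N' + 1) → K'} (hy : NormalModel y) (hy' : NormalModel y')
    (hn : Algebra.trdeg ℂ K = n) (hn' : Algebra.trdeg ℂ K' = n) (hcan : Canonical y n)
    {S : Set (Place ℂ K')} (hS : S.Finite) {k : ℕ} (hk : k < n)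
    (hmap : ∀ ε : ℝ, 0 < ε → ∃ (L : Type) (_ : Field L) (_ : Algebra ℂ L)
      (φ : K →ₐ[ℂ] L) (ψ : K' →ₐ[ℂ] L), FiniteDimensional ψ.fieldRange L ∧
        UnramifiedOutside ψ y' S ∧ MultiDegreeLe φ ψ y y' (n - (k + 1)) (k + 1) ε) :
    NumDimLt y n 0 (k + 1) ∧ (KodairaGe y n k → KodairaEq y n k ∧ NumDimEq y n k) := by
  have h1 := Pool.Agent.T2H07.Grow.grow hy hn hcan hk hy' hn' hS hmap
  exact ⟨h1, Pool.Agent.T2H07.Grow.conclude hy hn hk h1⟩

end Pool.Agent.Results.MP_c2a5fc_ag.DegreeGrowthAbundance
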