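import Pool.Agent.T2H06.DYN.Main

/-!
# The numerical dimension and the dynamical degrees of birational self-maps

Let `X` be a normal projective variety of dimension `n` with canonical singularities, for example a
projective manifold, and let `f : X ⇢ X` be a birational map. The largest dynamical degree of `f` is
attained by at least `ν (K_X) + 1` consecutive dynamical degrees. Hence `κ (X) = ν (X)` if `κ (X) ≥ k`
and if the largest dynamical degree is not attained by `k + 2` consecutive dynamical degrees; and if
`X` has a birational self-map with a unique largest dynamical degree, then `ν (K_X) ≤ 0`.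

The variety is given by the homogeneous coordinates `y` of its generic point (`NormalModel`), the
birational map by the automorphism `g = f^*` of the function field `K`. `Canonical` says that `X` has
canonical singularities, `DynDegree y n g p δ` that `δ` is the `p`-th dynamical degree, and
`NumDimLt y n 0 j` that `ν (K_X) < j`: for large `m` and small `b / m` the maps given by the sections
of `m K_X + b A` and by `n - j` pencils of hyperplane sections have degree at most `ε m ^ j`, so that
the positive product of `j` copies of `K_X` and `n - j` hyperplane sections is `0`. For nef `K_X`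
this product is the intersection number. `KodairaGe`, `KodairaEq` and `NumDimEq` say `κ (X) ≥ k`,
`κ (X) = k` and `ν (X) = k`.
-/

set_option autoImplicit false

open FF Pool.Agent.W602.GT Pool.Agent.Y172 Pool.Agent.R887 Pool.Agent.T2H06.DYN

namespace Pool.Agent.Results.MP_c2a5fc_ag.DynamicalDegreesPlateau

/-- Let `X` be a normal projective variety of dimension `n > 0` with canonical singularities, and `f`
a birational self-map of `X`. The dynamical degrees `δ 0, ..., δ n` of `f` exist, and if `ν (K_X) ≥ j`
then `δ q = δ (q + 1) = ... = δ (q + j)` is the largest dynamical degree for some `q ≤ n - j`. In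
particular `κ (X) = ν (X) = k` if `κ (X) ≥ k`, where `k < n`, and the largest dynamical degree is not
attained by `k + 2` consecutive dynamical degrees. -/
theorem result {K : Type} [Field K] [Algebra ℂ K] {N n : ℕ} {y : Fin (N + 1) → K}
    (hy : NormalModel y) (hn : Algebra.trdeg ℂ K = n) (hn0 : 0 < n) (hcan : Canonical y n)
    (g : K ≃ₐ[ℂ] K) :
    ∃ δ : ℕ → ℝ, (∀ p ≤ n, 1 ≤ δ p ∧ DynDegree y n g p (δ p)) ∧ δ 0 = 1 ∧ δ n = 1 ∧
      (∀ j ≤ n, ¬ NumDimLt y n 0 j →
        ∃ q, q + j ≤ n ∧ ∀ i ≤ j, ∀ p ≤ n, δ p ≤ δ (q + i)) ∧
      (∀ k < n, KodairaGe y n k →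
        (¬ ∃ q, q + (k + 1) ≤ n ∧ ∀ i ≤ k + 1, ∀ p ≤ n, δ p ≤ δ (q + i)) →
          KodairaEq y n k ∧ NumDimEq y n k) := by
  obtain ⟨δ, h1, h2, h3, h4⟩ := dyn hy hn hn0 hcan g
  exact ⟨δ, h1, h2, h3, h4, fun k hk hkod hfew => abundance_of_few hy hn h4 hk hkod hfew⟩

end Pool.Agent.Results.MP_c2a5fc_ag.DynamicalDegreesPlateau
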