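import Pool.Agent.T2H06.DYR.Main
import Pool.Agent.R887.Nef

/-!
# Nef canonical divisors and dominant rational self-maps

Let `X` be a normal projective variety of dimension `n` with canonical singularities (for instance a
projective manifold) such that `r K_X` is Cartier and `K_X` is nef, and let `f : X ⇢ X` be a dominant
rational map, of any topological degree. The largest dynamical degree of `f` is attained by at least
`ν (K_X) + 1` consecutive dynamical degrees. Hence `κ (X) = ν (X) = k` if `κ (X) ≥ k` and if the
largest dynamical degree of `f` is not attained by `k + 2` consecutive dynamical degrees; and `K_X` is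
numerically trivial if `f` is cohomologically hyperbolic, that is, if one of the dynamical degrees is
larger than all the others.

The variety is given by the homogeneous coordinates `y` of its generic point (`NormalModel`), the
rational map by the endomorphism `φ = f^*` of the function field `K`. `Canonical` says that `X` has
canonical singularities, `CartierIndex y n 0 r` that `r K_X` is Cartier, `CanonicalNef` that `K_X` is
nef, `DynDegree y n φ p δ` that `δ` is the `p`-th dynamical degree, and `NumDimLt y n 0 j` that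
`ν (K_X) < j`: for large `m` and small `b / m` the maps given by the sections of `m K_X + b A` and by
`n - j` pencils of hyperplane sections have degree at most `ε m ^ j`; for nef `K_X` this means that
`K_X ^ j · H ^ (n - j) = 0`. `KodairaGe`, `KodairaEq` and `NumDimEq` say `κ (X) ≥ k`, `κ (X) = k` and
`ν (X) = k`.
-/

set_option autoImplicit false

open FF Pool.Agent.W602.GT Pool.Agent.Y172 Pool.Agent.R887 Pool.Agent.T2H06.DYR

namespace Pool.Agent.Results.MP_c2a5fc_ag.RationalSelfMaps

/-- Let `X` be a normal projective variety of dimension `n > 0` with canonical singularities such that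
`r K_X` is Cartier and `K_X` is nef, and `f` a dominant rational self-map of `X`. The dynamical
degrees `δ 0, ..., δ n` of `f` exist, `δ 0 = 1`, `δ n = deg f`, and if `ν (K_X) ≥ j` then
`δ q = δ (q + 1) = ... = δ (q + j)` is the largest dynamical degree for some `q ≤ n - j`. In
particular `κ (X) = ν (X) = k` if `κ (X) ≥ k`, where `k < n`, and the largest dynamical degree is not
attained by `k + 2` consecutive dynamical degrees. If the largest dynamical degree is attained only
once, then `K_X` is numerically trivial, and the sections `η ≠ 0` of `m K_X`, `m ≥ 1`, have no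
zeros. -/
theorem result {K : Type} [Field K] [Algebra ℂ K] {N n : ℕ} {y : Fin (N + 1) → K}
    (hy : NormalModel y) (hn : Algebra.trdeg ℂ K = n) (hn0 : 0 < n) (hcan : Canonical y n)
    {r : ℕ} (hr : 1 ≤ r) (hcar : CartierIndex y n 0 r) (hnef : CanonicalNef y n)
    (φ : K →ₐ[ℂ] K) :
    ∃ δ : ℕ → ℝ, (∀ p ≤ n, 1 ≤ δ p ∧ DynDegree y n φ p (δ p)) ∧ δ 0 = 1 ∧
      δ n = mapDegree φ ∧
      (∀ j ≤ n, ¬ NumDimLt y n 0 j →
        ∃ q, q + j ≤ n ∧ ∀ i ≤ j, ∀ p ≤ n, δ p ≤ δ (q + i)) ∧
      (∀ k < n, KodairaGe y n k →
        (¬ ∃ q, q + (k + 1) ≤ n ∧ ∀ i ≤ k + 1, ∀ p ≤ n, δ p ≤ δ (q + i)) →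
          KodairaEq y n k ∧ NumDimEq y n k) ∧
      ((∃ p ≤ n, ∀ q ≤ n, q ≠ p → δ q < δ p) →
        NumDimLt y n 0 1 ∧ ∀ m : ℕ, 1 ≤ m → ∀ η : (Fin n → Derivation ℂ K K) → K,
          IsSection y n m 0 η → η ≠ 0 → ∀ P, IsPrimeDivisor y P → OrdEq P η 0) := by
  obtain ⟨δ, h1, h2, h3, h4⟩ := dyn hy hn hn0 hcan hr hcar hnef φ
  refine ⟨δ, h1, h2, h3, h4, fun k hk hkod hfew =>
    Pool.Agent.T2H06.DYN.abundance_of_few hy hn h4 hk hkod hfew, ?_⟩
  rintro ⟨p, hp, hmax⟩
  have h5 : NumDimLt y n 0 1 := by
    by_contra hnd
    obtain ⟨q, hq, hle⟩ := h4 1 hn0 hnd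
    have h6 : q = p := by
      by_contra hne
      have h7 := hmax q (by omega) hne
      have h8 := hle 0 (Nat.zero_le _) p hp
      rw [add_zero] at h8
      linarith
    have h7 := hmax (q + 1) hq (by omega)
    have h8 := hle 1 le_rfl p hp
    linarith
  exact ⟨h5, fun m hm η hη hη0 => nef_trivial hy hn hn0 h5 hnef hm hη hη0⟩

end Pool.Agent.Results.MP_c2a5fc_ag.RationalSelfMaps
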